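import Pool.Agent.Q88.NoHeat.Final

/-!
# MP_94b6b1_an, Q1: an amenable group with the Haagerup property and without the heat property

All definitions are in `Pool.Agent.Q88.Heat.Stmt` and `Pool.Agent.Q88.NoHeat.Stmt`.

There is a countable infinite amenable group `G` (which has the Haagerup property) such that for
every negative definite `d : G → [0, ∞)` with `d(e) = 0` and every `t > 0` there is an element `x`
of the reduced group C*-algebra whose image under the heat map of `d` at time `t` is not in
`CF(G)`. In particular `G` does not have the heat property. The heat map enters in two ways: no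
element of `CF(G)` has the Fourier coefficients `e^{-t d(g)} x̂(g)`, and no map with the defining
properties of the heat map sends `x` into `CF(G)`.

The group is an extension of a locally finite group by the integers. It contains elements `t`, `a`,
`b` and finite subgroups `V_m = (F_3)^{2(m³+1)}` such that `a` and `t^{-m} b t^m` act on `V_m` by
the two transvections `(f, h) ↦ (f + xh, h)` and `(f, h) ↦ (f, h + xf)` over `F_3[x]/(x^{m³+1})`.
A ping-pong argument on the characters of `V_m` bounds the mean of every negative definite `d` on
`V_m` by `C_d (m+1)²`. On the other hand, if all elements were smoothed into `CF(G)`, then the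
Banach-Steinhaus theorem and the element `Σ ω^{f·h} λ(f, h)`, whose norm is the square root of the
order of `V_m`, would give `Σ_{V_m} e^{-t d} ≤ C |V_m|^{1/2}`, which is false for large `m`.
-/

namespace Pool.Agent.Results.MP_94b6b1_an.NoHeatProperty

open Q88.HeatS

/-- Q1: there is a countable infinite amenable group, with the Haagerup property, that does not
have the heat property; the heat property even fails for every `d` and every `t > 0`. Here `Λ` is
the left regular representation. -/
theorem result : ∃ (G : Type) (_ : Group G) (_ : Countable G) (_ : Infinite G),
    Amenable G ∧ Haagerup G ∧ (∃ Λ : G → Op G, IsReg Λ) ∧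
    ∀ Λ : G → Op G, IsReg Λ → ∀ d : G → ℝ, ND0 d → ∀ t : ℝ, 0 < t → ∃ x ∈ redC Λ,
      (¬ ∃ y ∈ CF Λ, ∀ g, hat y g = (Real.exp (-(t * d g)) : ℂ) * hat x g) ∧
      ∀ M, IsHeatC Λ d t M → M x ∉ CF Λ :=
  no_heat

end Pool.Agent.Results.MP_94b6b1_an.NoHeatProperty
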